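import Mathlib
import Pool.Agent.Lib.MP_ccf8bc_lc.Defs

/-!
Directed unions indexed by finite sets.
-/

set_option maxHeartbeats 400000

namespace Pool.Agent.Lib.MP_ccf8bc_lc

open FirstOrder FirstOrder.Language Cardinal

universe u

variable {L : FirstOrder.Language.{u, u}} (K : AEC L)

theorem AEC.LS_spec : ℵ₀ ≤ K.LS ∧ L.card ≤ K.LS ∧
    ∀ (N : Type u) [L.Structure N], K.Mem N → ∀ A : Set N,
      ∃ S : L.Substructure N, A ⊆ S ∧ K.Str S.subtype ∧ #S ≤ #A + K.LS :=
  csInf_mem K.ls

/-- The strong substructure relation between substructures of one structure. -/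
def AEC.R {N : Type u} [L.Structure N] (S T : L.Substructure N) : Prop :=
  ∃ h : S ≤ T, K.Str (Substructure.inclusion h)

variable {K} {N : Type u} [L.Structure N]

theorem AEC.R.trans {S T W : L.Substructure N} (h₁ : K.R S T) (h₂ : K.R T W) : K.R S W :=
  ⟨h₁.1.trans h₂.1, K.str_comp _ _ h₁.2 h₂.2⟩

theorem AEC.R.coh {S T W : L.Substructure N} (h₁ : K.R S W) (h₂ : K.R T W) (h : S ≤ T) :
    K.R S T :=
  ⟨h, K.coherence _ _ h₂.2 h₁.2⟩

theorem exists_chain {A : Type u} (C : Set A) (hC : C.Infinite) :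
    ∃ (ι : Type u) (_ : LinearOrder ι) (_ : WellFoundedLT ι) (_ : Nonempty ι) (D : ι → Set A),
      Monotone D ∧ (∀ i, #(D i) < #C) ∧ (∀ i, D i ⊆ C) ∧
      ∀ s : Finset A, (s : Set A) ⊆ C → ∃ i, (s : Set A) ⊆ D i := by
  have hinf : ℵ₀ ≤ #C := Cardinal.infinite_iff.1 hC.to_subtype
  obtain ⟨e⟩ : Nonempty ((#C).ord.ToType ≃ C) := Cardinal.eq.1 (by simp)
  have hne : Nonempty (#C).ord.ToType := e.nonempty_congr.2 hC.nonempty.to_subtype
  have hno : NoMaxOrder (#C).ord.ToType := Cardinal.noMaxOrder hinf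
  refine ⟨(#C).ord.ToType, inferInstance, inferInstance, hne,
    fun i => (fun j => (e j : A)) '' Set.Iio i, fun i j h => Set.image_mono (Set.Iio_subset_Iio h),
    fun i => Cardinal.mk_image_le.trans_lt (by simpa using Cardinal.mk_Iio_lt i (by simp)), ?_, ?_⟩
  · rintro i _ ⟨j, -, rfl⟩
    exact (e j).2
  · intro s hs
    obtain ⟨m, hm⟩ := (Set.finite_range fun x : s => e.symm ⟨x, hs x.2⟩).bddAbove
    obtain ⟨i, hi⟩ := exists_gt m
    exact ⟨i, fun x hx => ⟨e.symm ⟨x, hs hx⟩, (hm ⟨⟨x, hx⟩, rfl⟩).trans_lt hi, by simp⟩⟩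

/-- The union of the part of a system indexed by finite subsets of `C`. -/
def UU {A : Type u} (F : Finset A → L.Substructure N) (C : Set A) : L.Substructure N :=
  ⨆ s : {s : Finset A // (s : Set A) ⊆ C}, F s

section

variable {A : Type u} {F : Finset A → L.Substructure N}

theorem le_UU {C : Set A} {s : Finset A} (hs : (s : Set A) ⊆ C) : F s ≤ UU F C :=
  le_iSup (fun s : {s : Finset A // (s : Set A) ⊆ C} => F s) ⟨s, hs⟩

theorem UU_le {C : Set A} {W : L.Substructure N} (h : ∀ s : Finset A, (s : Set A) ⊆ C → F s ≤ W) :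
    UU F C ≤ W := iSup_le fun s => h s s.2

theorem UU_mono {C D : Set A} (h : C ⊆ D) : UU F C ≤ UU F D :=
  UU_le fun _ hs => le_UU (hs.trans h)

theorem UU_finite (hF : Monotone F) (s : Finset A) : UU F s = F s :=
  le_antisymm (UU_le fun _ ht => hF (Finset.coe_subset.1 ht)) (le_UU subset_rfl)

theorem UU_chain {ι : Type u} {C : Set A} {D : ι → Set A} (h1 : ∀ i, D i ⊆ C)
    (h2 : ∀ s : Finset A, (s : Set A) ⊆ C → ∃ i, (s : Set A) ⊆ D i) :
    ⨆ i, UU F (D i) = UU F C := by
  refine le_antisymm (iSup_le fun i => UU_mono (h1 i)) (UU_le fun s hs => ?_)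
  obtain ⟨i, hi⟩ := h2 s hs
  exact (le_UU hi).trans (le_iSup (fun i => UU F (D i)) i)

theorem mem_UU (hF : Monotone F) {C : Set A} {x : N} :
    x ∈ UU F C ↔ ∃ s : Finset A, (s : Set A) ⊆ C ∧ x ∈ F s := by
  classical
  have : Nonempty {s : Finset A // (s : Set A) ⊆ C} := ⟨⟨∅, by simp⟩⟩
  rw [UU, Substructure.mem_iSup_of_directed]
  · simp
  · rintro ⟨s, hs⟩ ⟨t, ht⟩
    exact ⟨⟨s ∪ t, by simp [hs, ht]⟩, hF Finset.subset_union_left, hF Finset.subset_union_right⟩

theorem UU_smooth (hF : Monotone F) (W : L.Substructure N) (C : Set A)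
    (h : ∀ s : Finset A, (s : Set A) ⊆ C → K.R (F s) W) : K.R (UU F C) W := by
  induction hc : #C using WellFoundedLT.induction generalizing C with
  | ind c ih =>
    rcases C.finite_or_infinite with hC | hC
    · lift C to Finset A using hC
      rw [UU_finite hF]
      exact h C subset_rfl
    · obtain ⟨ι, _, _, _, D, h1, h2, h3, h4⟩ := exists_chain C hC
      have h5 : ∀ i, K.R (UU F (D i)) W := fun i =>
        ih _ (hc ▸ h2 i) (D i) (fun s hs => h s (hs.trans (h3 i))) rfl
      rw [← UU_chain h3 h4]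
      exact ⟨iSup_le fun i => (h5 i).1, K.chain_smooth _ (fun i j hij => UU_mono (h1 hij)) W
        (fun i => (h5 i).1) (fun i j hij => ((h5 i).coh (h5 j) (UU_mono (h1 hij))).2)
        fun i => (h5 i).2⟩

theorem UU_union (h : ∀ s t : Finset A, s ⊆ t → K.R (F s) (F t)) (C : Set A) (s : Finset A)
    (hs : (s : Set A) ⊆ C) : K.R (F s) (UU F C) := by
  have hF : Monotone F := fun s t hst => (h s t hst).1
  induction hc : #C using WellFoundedLT.induction generalizing C s with
  | ind c ih =>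
    rcases C.finite_or_infinite with hC | hC
    · lift C to Finset A using hC
      rw [UU_finite hF]
      exact h s C (Finset.coe_subset.1 hs)
    · obtain ⟨ι, _, _, _, D, h1, h2, h3, h4⟩ := exists_chain C hC
      have h5 : ∀ i, ∀ t : Finset A, (t : Set A) ⊆ D i → K.R (F t) (UU F (D i)) := fun i t ht =>
        ih _ (hc ▸ h2 i) (D i) t ht rfl
      have h6 : ∀ i j, i ≤ j → K.R (UU F (D i)) (UU F (D j)) := fun i j hij =>
        UU_smooth hF _ _ fun t ht => h5 j t (ht.trans (h1 hij))
      obtain ⟨i, hi⟩ := h4 s hs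
      rw [← UU_chain h3 h4]
      exact (h5 i s hi).trans ⟨le_iSup (fun i => UU F (D i)) i,
        K.chain_union _ (fun i j hij => UU_mono (h1 hij)) (fun i j hij => (h6 i j hij).2) i⟩

theorem UU_R (h : ∀ s t : Finset A, s ⊆ t → K.R (F s) (F t)) {C D : Set A} (hCD : C ⊆ D) :
    K.R (UU F C) (UU F D) :=
  UU_smooth (fun s t hst => (h s t hst).1) _ _ fun s hs => UU_union h D s (hs.trans hCD)

end

/-- An embedding onto a strong substructure is a `K`-embedding. -/
theorem AEC.str_of_range {M : Type u} [L.Structure M] {T W : L.Substructure N} (h : K.R T W)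
    (f : M ↪[L] N) (hf : f.toHom.range = T) (hW : ∀ x, f x ∈ W) : K.Str (f.codRestrict W hW) := by
  subst hf
  have h1 : K.Mem M := K.mem_cod _ (K.str_equiv f.equivRange.symm (K.mem_dom _ h.2))
  exact K.str_comp _ _ (K.str_equiv f.equivRange h1) h.2

theorem AEC.R_top {S : L.Substructure N} (h : K.Str S.subtype) : K.R S ⊤ := by
  refine ⟨le_top, K.coherence _ Substructure.topEquiv.toEmbedding ?_ h⟩
  exact K.str_equiv _ (K.mem_cod _ (K.str_equiv Substructure.topEquiv.symm (K.mem_cod _ h)))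

theorem AEC.R_of_subtype {S T : L.Substructure N} (hS : K.Str S.subtype) (hT : K.Str T.subtype)
    (h : S ≤ T) : K.R S T := ⟨h, K.coherence _ _ hT hS⟩

theorem AEC.str_codRestrict {M : Type u} [L.Structure M] {f : M ↪[L] N} (hf : K.Str f)
    {W : L.Substructure N} (hW : K.Str W.subtype) (h : ∀ x, f x ∈ W) :
    K.Str (f.codRestrict W h) := K.coherence _ _ hW hf

theorem AEC.str_range {M : Type u} [L.Structure M] {f : M ↪[L] N} (hf : K.Str f) :
    K.Str f.toHom.range.subtype := by
  have h1 := K.str_equiv f.equivRange (K.mem_dom _ hf)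
  have h2 := K.str_comp _ _ (K.str_equiv f.equivRange.symm (K.mem_cod _ h1)) hf
  have h3 : f.comp f.equivRange.symm.toEmbedding = f.toHom.range.subtype := by
    ext x
    simpa using (f.equivRange_apply (f.equivRange.symm x)).symm
  rwa [h3] at h2

/-- A system of small strong substructures adapted to a strong substructure `S`. -/
theorem AEC.exists_system {S : L.Substructure N} (hS : K.Str S.subtype) :
    ∃ G : Finset N → L.Substructure N, Monotone G ∧ (∀ s : Finset N, (s : Set N) ⊆ G s) ∧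
      (∀ s, K.Str (G s).subtype) ∧ (∀ s, #(G s) ≤ K.LS) ∧
      ∀ s : Finset N, (s : Set N) ⊆ S → G s ≤ S := by
  classical
  obtain ⟨hinf, -, hls⟩ := K.LS_spec
  have key : ∀ A : Set N, ∃ T : L.Substructure N, A ⊆ T ∧ K.Str T.subtype ∧ #T ≤ #A + K.LS ∧
      (A ⊆ S → T ≤ S) := by
    intro A
    by_cases hA : A ⊆ S
    · obtain ⟨T, h1, h2, h3⟩ := hls S (K.mem_dom _ hS) (Subtype.val ⁻¹' A)
      have h4 := K.str_range (K.str_comp _ _ h2 hS)
      refine ⟨_, ?_, h4, ?_, ?_⟩
      · intro x hx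
        exact ⟨⟨⟨x, hA hx⟩, h1 hx⟩, rfl⟩
      · rw [← Cardinal.mk_congr (S.subtype.comp T.subtype).equivRange.toEquiv]
        exact h3.trans (add_le_add_left (Cardinal.mk_preimage_of_injective _ _ Subtype.val_injective) _)
      · rintro - _ ⟨y, rfl⟩
        exact y.1.2
    · obtain ⟨T, h1, h2, h3⟩ := hls N (K.mem_cod _ hS) A
      exact ⟨T, h1, h2, h3, fun h => absurd h hA⟩
  choose cl c1 c2 c3 c4 using key
  let G : Finset N → L.Substructure N := fun s =>
    Finset.strongInduction (p := fun _ => L.Substructure N)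
      (fun s ih => cl ((s : Set N) ∪ ⋃ t : {t // t ⊂ s}, (ih t t.2 : Set N))) s
  have hG : ∀ s, G s = cl ((s : Set N) ∪ ⋃ t : {t // t ⊂ s}, (G t : Set N)) := fun s => by
    simp only [G]
    rw [Finset.strongInduction_eq]
  refine ⟨G, fun s t hst => ?_, fun s => ?_, fun s => ?_, fun s => ?_, fun s => ?_⟩
  · rcases hst.eq_or_lt with rfl | h
    · exact le_rfl
    · rw [hG t]
      exact fun x hx => c1 _ (Or.inr (Set.mem_iUnion.2 ⟨⟨s, h⟩, hx⟩))
  · rw [hG]
    exact fun x hx => c1 _ (Or.inl hx)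
  · rw [hG]
    exact c2 _
  · induction s using Finset.strongInduction with
    | H s ih =>
      rw [hG]
      refine (c3 _).trans (Cardinal.add_le_of_le hinf ?_ le_rfl)
      refine (Cardinal.mk_union_le _ _).trans (Cardinal.add_le_of_le hinf ?_ ?_)
      · exact (s.finite_toSet.lt_aleph0.le).trans hinf
      · have : Finite {t // t ⊂ s} :=
          (Set.Finite.subset (s.powerset.finite_toSet) fun t ht => by
            simpa using (show t ⊂ s from ht).subset).to_subtype
        refine (Cardinal.mk_iUnion_le _).trans (Cardinal.mul_le_of_le hinf ?_ ?_)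
        · exact (Cardinal.lt_aleph0_of_finite _).le.trans hinf
        · exact ciSup_le' fun t => ih t t.2
  · induction s using Finset.strongInduction with
    | H s ih =>
      intro hs
      rw [hG]
      refine c4 _ (Set.union_subset hs (Set.iUnion_subset fun t => ?_))
      exact ih t t.2 ((Finset.coe_subset.2 t.2.subset).trans hs)

end Pool.Agent.Lib.MP_ccf8bc_lc
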