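import Mathlib
import Pool.Agent.Lib.MP_ccf8bc_lc.Defs

/-!
Abstract elementary classes with a prescribed amalgamation spectrum.
-/

set_option maxHeartbeats 400000

namespace Pool.Agent.Lib.MP_ccf8bc_lc

open FirstOrder FirstOrder.Language Cardinal FirstOrder.Language.Structure

universe u

/-- Constants indexed by `C` and two unary predicates. -/
def Lc (C : Type u) : FirstOrder.Language.{u, u} where
  Functions n := match n with
    | 0 => C
    | _ + 1 => PEmpty
  Relations n := match n with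
    | 1 => ULift Bool
    | 0 => PEmpty
    | _ + 2 => PEmpty

variable {C : Type u}

/-- The interpretation of the constants. -/
def cst (M : Type u) [(Lc C).Structure M] (c : C) : M := funMap (L := Lc C) (n := 0) c default

/-- The interpretation of the predicates. -/
def prd {M : Type u} [(Lc C).Structure M] (b : Bool) (x : M) : Prop :=
  RelMap (L := Lc C) (n := 1) (ULift.up b) fun _ => x

section

variable {M N : Type u} [(Lc C).Structure M] [(Lc C).Structure N]

theorem map_cst (f : M ↪[Lc C] N) (c : C) : f (cst M c) = cst N c :=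
  (f.map_fun (n := 0) c default).trans (congrArg _ (Subsingleton.elim _ _))

theorem map_prd (f : M ↪[Lc C] N) (b : Bool) (x : M) : prd (C := C) b (f x) ↔ prd (C := C) b x :=
  f.map_rel (n := 1) (ULift.up b) fun _ => x

theorem card_cst (f : M ↪[Lc C] N) : #(Set.range (cst (C := C) N)) = #(Set.range (cst (C := C) M)) := by
  rw [← Cardinal.mk_image_eq (s := Set.range (cst M)) f.injective, ← Set.range_comp]
  exact congrArg (fun g : C → N => #(Set.range g)) (funext fun c => (map_cst f c).symm)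

end

variable (C) in
/-- Membership in the class. -/
def Good (Z Z' : Set Cardinal.{u}) (M : Type u) [(Lc C).Structure M] : Prop :=
  (∀ (x y : M) (b b' : Bool), prd (C := C) b x → prd (C := C) b' y → x = y) ∧
  ((#(Set.range (cst (C := C) M)) ∈ Z ∧
    ∀ x : M, x ∈ Set.range (cst (C := C) M) ∨ ∃ b, prd (C := C) b x) ∨
    #(Set.range (cst (C := C) M)) ∈ Z')

variable {Z Z' : Set Cardinal.{u}}

theorem Good.of_embedding {M N : Type u} [(Lc C).Structure M] [(Lc C).Structure N]
    (f : M ↪[Lc C] N) (h : Good C Z Z' N) : Good C Z Z' M := by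
  refine ⟨fun x y b b' hx hy => f.injective (h.1 _ _ b b' ((map_prd f b x).2 hx)
    ((map_prd f b' y).2 hy)), ?_⟩
  rw [← card_cst f]
  refine h.2.imp_left fun h2 => ⟨h2.1, fun x => (h2.2 (f x)).imp ?_ ?_⟩
  · rintro ⟨c, hc⟩
    exact ⟨c, f.injective ((map_cst f c).trans hc)⟩
  · rintro ⟨b, hb⟩
    exact ⟨b, (map_prd f b x).1 hb⟩

theorem Good.iSup {N : Type u} [(Lc C).Structure N] {ι : Type u} [LinearOrder ι] [Nonempty ι]
    (S : ι → (Lc C).Substructure N) (hS : Monotone S) (h : ∀ i, Good C Z Z' (S i)) :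
    Good C Z Z' (⨆ i, S i : (Lc C).Substructure N) := by
  have hm : ∀ x : (⨆ i, S i : (Lc C).Substructure N), ∃ i, x.1 ∈ S i := fun x =>
    (Substructure.mem_iSup_of_directed hS.directed_le).1 x.2
  have hc := fun i => card_cst (Substructure.inclusion (le_iSup S i))
  constructor
  · intro x y b b' hx hy
    obtain ⟨i, hi⟩ := hm x
    obtain ⟨j, hj⟩ := hm y
    have := (h (max i j)).1 ⟨x, hS (le_max_left i j) hi⟩ ⟨y, hS (le_max_right i j) hj⟩ b b' hx hy
    exact Subtype.ext (congrArg (fun z : S (max i j) => z.1) this)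
  · by_cases h1 : #(Set.range (cst (C := C) (⨆ i, S i : (Lc C).Substructure N))) ∈ Z'
    · exact Or.inr h1
    have h2 := fun i => (h i).2.resolve_right (hc i ▸ h1)
    refine Or.inl ⟨hc (Classical.arbitrary ι) ▸ (h2 _).1, fun x => ?_⟩
    obtain ⟨i, hi⟩ := hm x
    refine ((h2 i).2 ⟨x, hi⟩).imp ?_ id
    rintro ⟨c, hc⟩
    exact ⟨c, (map_cst (Substructure.inclusion (le_iSup S i)) c).symm.trans
      (congrArg (Substructure.inclusion (le_iSup S i)) hc)⟩

variable (C Z Z') in
/-- The example. -/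
def exAEC [Nonempty C] : AEC (Lc C) where
  Mem M _ := Good C Z Z' M
  Str {M N} _ _ _ := Good C Z Z' M ∧ Good C Z Z' N
  nonempty M _ _ := ⟨cst M (Classical.arbitrary C)⟩
  mem_dom _ h := h.1
  mem_cod _ h := h.2
  str_equiv e h := ⟨h, h.of_embedding e.symm.toEmbedding⟩
  str_comp _ _ h h' := ⟨h.1, h'.2⟩
  coherence _ _ h h' := ⟨h'.1, h.1⟩
  chain_union S hS h i := ⟨(h i i le_rfl).1, Good.iSup S hS fun j => (h j j le_rfl).1⟩
  chain_smooth S hS _ _ h h' :=
    ⟨Good.iSup S hS fun j => (h j j le_rfl).1, (h' (Classical.arbitrary _)).2⟩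
  ls := by
    refine ⟨max ℵ₀ (Lc C).card, le_max_left _ _, le_max_right _ _, fun N _ hN A =>
      ⟨Substructure.closure _ A, Substructure.subset_closure,
        ⟨hN.of_embedding (Substructure.subtype _), hN⟩, ?_⟩⟩
    have h := Substructure.lift_card_closure_le (L := Lc C) (s := A)
    simp only [lift_id] at h
    refine h.trans (max_le ((le_max_left _ _).trans le_add_self) (add_le_add le_rfl ?_))
    exact (Cardinal.mk_le_of_injective
      (Sum.inl_injective (β := Σ n, (Lc C).Relations n))).trans (le_max_right _ _)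

/-- A structure given by its constants and predicates. -/
def St {B : Type u} (_c : C → B) (_q : Bool → B → Prop) : Type u := B

instance {B : Type u} (c : C → B) (q : Bool → B → Prop) : (Lc C).Structure (St c q) where
  funMap {n} f _ := match n, f with
    | 0, f => c f
    | _ + 1, f => f.elim
  RelMap {n} r x := match n, r with
    | 1, r => q r.down (x 0)
    | 0, r => r.elim
    | _ + 2, r => r.elim

/-- Adding one point that satisfies exactly the predicate `b`. -/
def addPt {B : Type u} (c : C → B) (b : Bool) :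
    St c (fun _ _ => False) ↪[Lc C] St (some ∘ c) (fun b' x => b' = b ∧ x = none) where
  toFun := some
  inj' := Option.some_injective B
  map_fun' {n} f _ := match n, f with
    | 0, _ => rfl
    | _ + 1, f => f.elim
  map_rel' {n} r _ := match n, r with
    | 1, _ => iff_of_false (fun h => Option.some_ne_none _ h.2) id
    | 0, r => r.elim
    | _ + 2, r => r.elim

theorem not_AP [Nonempty C] {B : Type u} (hB : ℵ₀ ≤ #B) (c : C → B)
    (h : (#(Set.range c) ∈ Z ∧ Function.Surjective c) ∨ #(Set.range c) ∈ Z') :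
    ¬ (exAEC C Z Z').AP #B := by
  intro hAP
  have h1 : ∀ b, Good C Z Z' (St (some ∘ c) fun b' x => b' = b ∧ x = none) := fun b => by
    refine ⟨fun x y _ _ hx hy => hx.2.trans hy.2.symm, ?_⟩
    rw [card_cst (addPt c b)]
    refine h.imp_left fun h => ⟨h.1, fun x => ?_⟩
    rcases x with _ | x
    · exact Or.inr ⟨b, rfl, rfl⟩
    · obtain ⟨a, rfl⟩ := h.2 x
      exact Or.inl ⟨a, rfl⟩
  have h2 : #(Option B) = #B := by
    rw [Cardinal.mk_option, Cardinal.add_one_eq hB]
  obtain ⟨N, _, f₁, f₂, -, e₁, -, -⟩ := hAP _ _ _ (addPt c true) (addPt c false)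
    ⟨(h1 true).of_embedding (addPt c true), h1 true⟩
    ⟨(h1 true).of_embedding (addPt c true), h1 false⟩ rfl h2 h2
  have p₁ : prd (C := C) true (f₁ none) := (map_prd f₁ true none).2 ⟨rfl, rfl⟩
  have p₂ : prd (C := C) false (f₂ none) := (map_prd f₂ false none).2 ⟨rfl, rfl⟩
  rw [e₁.2.1 _ _ _ _ p₁ p₂] at p₁
  exact Bool.noConfusion ((map_prd f₂ true none).1 p₁).1

theorem Good.card {M : Type u} [(Lc C).Structure M] (h : Good C Z Z' M) (hZ : ∀ z ∈ Z, ℵ₀ ≤ z) :
    #M ∈ Z ∨ ∃ z ∈ Z', z ≤ #M := by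
  refine h.2.imp (fun h2 => ?_) fun h2 => ⟨_, h2, Cardinal.mk_set_le _⟩
  have h3 : #M = #(Set.range (cst (C := C) M)) := by
    refine le_antisymm ?_ (Cardinal.mk_set_le _)
    have h4 : (Set.univ : Set M) ⊆ Set.range (cst (C := C) M) ∪ {x | ∃ b, prd (C := C) b x} :=
      fun x _ => h2.2 x
    rw [← Cardinal.mk_univ]
    refine (Cardinal.mk_le_mk_of_subset h4).trans ((Cardinal.mk_union_le _ _).trans
      (Cardinal.add_le_of_le (hZ _ h2.1) le_rfl ?_))
    refine le_trans (Cardinal.mk_le_one_iff_set_subsingleton.2 ?_) (one_le_aleph0.trans (hZ _ h2.1))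
    rintro x ⟨b, hb⟩ y ⟨b', hb'⟩
    exact h.1 x y b b' hb hb'
  rw [h3]
  exact h2.1

theorem AEC.AP_of_finite {L : FirstOrder.Language.{u, u}} (K : AEC L) {c : Cardinal.{u}}
    (hc : c < ℵ₀) : K.AP c := by
  intro M₀ M₁ M₂ _ _ _ g₁ g₂ s₁ s₂ c₀ c₁ c₂
  have : Finite M₀ := Cardinal.lt_aleph0_iff_finite.1 (c₀ ▸ hc)
  obtain ⟨e⟩ : Nonempty (M₀ ≃ M₁) := Cardinal.eq.1 (c₀.trans c₁.symm)
  have hb : Function.Bijective g₁ := ⟨g₁.injective, (Finite.injective_iff_surjective_of_equiv e).1 g₁.injective⟩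
  let e₁ : M₀ ≃[L] M₁ :=
    { Equiv.ofBijective g₁ hb with map_fun' := g₁.map_fun', map_rel' := g₁.map_rel' }
  refine ⟨M₂, inferInstance, g₂.comp e₁.symm.toEmbedding, (Language.Equiv.refl L M₂).toEmbedding,
    c₂, K.str_comp _ _ (K.str_equiv _ (K.mem_cod _ s₁)) s₂, K.str_equiv _ (K.mem_cod _ s₂), ?_⟩
  ext x
  exact congrArg g₂ (e₁.symm_apply_apply x)

theorem realise (X Y : Set Cardinal.{u}) (hXY : Disjoint X Y) (hb : BddAbove X ∨ BddAbove Y)
    (hY : ∀ m ∈ Y, ℵ₀ ≤ m) :
    ∃ (L : FirstOrder.Language.{u, u}) (K : AEC L), (∀ n ∈ X, K.AP n) ∧ ∀ m ∈ Y, ¬ K.AP m := by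
  have key : ∀ (κ : Cardinal.{u}) (Z' : Set Cardinal.{u}), ℵ₀ ≤ κ → (∀ n ∈ X, ∀ z ∈ Z', n < z) →
      (∀ m ∈ Y, m ≤ κ ∨ κ ∈ Z') →
      ∃ (L : FirstOrder.Language.{u, u}) (K : AEC L), (∀ n ∈ X, K.AP n) ∧ ∀ m ∈ Y, ¬ K.AP m := by
    intro κ Z' h0 h1 h2
    have : Nonempty κ.out := Cardinal.mk_ne_zero_iff.1 (by
      rw [Cardinal.mk_out]; exact (aleph0_pos.trans_le h0).ne')
    refine ⟨Lc κ.out, exAEC κ.out Y Z', fun n hn M₀ M₁ M₂ _ _ _ g₁ g₂ s₁ _ c₀ _ _ => ?_,
      fun m hm => ?_⟩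
    · exfalso
      rcases s₁.1.card hY with h | ⟨z, h, h'⟩
      · exact Set.disjoint_left.1 hXY hn (c₀ ▸ h)
      · exact (h1 n hn z h).not_ge (c₀ ▸ h')
    · have hm0 := hY m hm
      rw [← Cardinal.mk_out m] at hm0 ⊢
      rcases le_total m κ with h | h
      · have : Nonempty m.out := Cardinal.mk_ne_zero_iff.1 (aleph0_pos.trans_le hm0).ne'
        obtain ⟨e⟩ : Nonempty (m.out ↪ κ.out) := (Cardinal.le_def _ _).1 (by simpa using h)
        have hs := Function.invFun_surjective e.injective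
        exact not_AP hm0 (Function.invFun e) (Or.inl ⟨by simpa [hs.range_eq] using hm, hs⟩)
      · rcases h2 m hm with h3 | h3
        · obtain rfl := le_antisymm h h3
          exact not_AP hm0 id (Or.inl ⟨by simpa using hm, Function.surjective_id⟩)
        · obtain ⟨e⟩ : Nonempty (κ.out ↪ m.out) := (Cardinal.le_def _ _).1 (by simpa using h)
          exact not_AP hm0 e (Or.inr (by simpa [Cardinal.mk_range_eq _ e.injective] using h3))
  rcases hb with ⟨θ, hθ⟩ | ⟨θ, hθ⟩
  · refine key (Order.succ (max θ ℵ₀)) {Order.succ (max θ ℵ₀)}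
      ((le_max_right _ _).trans (Order.le_succ _)) ?_ fun m _ => Or.inr rfl
    rintro n hn _ rfl
    exact ((hθ hn).trans (le_max_left _ _)).trans_lt (Order.lt_succ _)
  · exact key (max θ ℵ₀) ∅ (le_max_right _ _) (by simp)
      fun m hm => Or.inl ((hθ hm).trans (le_max_left _ _))

end Pool.Agent.Lib.MP_ccf8bc_lc
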