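import Mathlib
import Pool.Agent.Lib.MP_ccf8bc_lc.Dir

/-!
Limit ultrapowers of members of an abstract elementary class.
-/

set_option maxHeartbeats 400000

namespace Pool.Agent.Lib.MP_ccf8bc_lc

open FirstOrder FirstOrder.Language Cardinal Filter FirstOrder.Language.Structure

universe u

variable {J α : Type u}

/-- `h` depends only on the coordinates in `σ`. -/
def Supp (σ : Finset J) {β : Type*} (h : (J → α) → β) : Prop :=
  ∀ x y : J → α, (∀ j ∈ σ, x j = y j) → h x = h y

/-- `h` depends on finitely many coordinates. -/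
def FS {β : Type*} (h : (J → α) → β) : Prop := ∃ σ, Supp σ h

theorem Supp.mono {σ τ : Finset J} {β : Type*} {h : (J → α) → β} (hs : Supp σ h) (hσ : σ ⊆ τ) :
    Supp τ h := fun x y hxy => hs x y fun j hj => hxy j (hσ hj)

theorem exists_common {ι β : Type*} [Finite ι] {h : ι → (J → α) → β} (hs : ∀ i, FS (h i)) :
    ∃ σ, ∀ i, Supp σ (h i) := by
  classical
  have := Fintype.ofFinite ι
  choose σ hσ using hs
  exact ⟨Finset.univ.biUnion σ, fun i =>
    (hσ i).mono (Finset.subset_biUnion_of_mem σ (Finset.mem_univ i))⟩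

/-- Completeness of `V` on families with a common finite support. -/
def Cpl (V : Ultrafilter (J → α)) (θ : Cardinal.{u}) : Prop :=
  ∀ (σ : Finset J) (Γ : Type u), #Γ ≤ θ → ∀ A : Γ → (J → α) → Prop, (∀ γ, Supp σ (A γ)) →
    (∀ γ, ∀ᶠ x in (V : Filter (J → α)), A γ x) → ∀ᶠ x in (V : Filter (J → α)), ∀ γ, A γ x

variable {L : FirstOrder.Language.{u, u}} (V : Ultrafilter (J → α))

/-- The ultrapower. -/
abbrev UP (M : Type u) : Type u := (V : Filter (J → α)).Product fun _ => M

/-- The class of a function in the ultrapower. -/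
def mk {M : Type u} (h : (J → α) → M) : UP V M := Quotient.mk _ h

variable {M : Type u}

theorem mk_eq {h k : (J → α) → M} : mk V h = mk V k ↔ ∀ᶠ x in (V : Filter (J → α)), h x = k x :=
  Quotient.eq

theorem mk_surj (y : UP V M) : ∃ h, mk V h = y := Quotient.exists_rep y

variable [L.Structure M]

theorem funMap_mk {n : ℕ} (f : L.Functions n) (h : Fin n → (J → α) → M) :
    (funMap f fun i => mk V (h i)) = mk V fun x => funMap f fun i => h i x :=
  Ultraproduct.funMap_cast (M := fun _ => M) f h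

theorem relMap_mk {n : ℕ} (r : L.Relations n) (h : Fin n → (J → α) → M) :
    (RelMap r fun i => mk V (h i)) ↔ ∀ᶠ x in (V : Filter (J → α)), RelMap r fun i => h i x :=
  relMap_quotient_mk' (ps := Ultraproduct.setoidPrestructure (fun _ => M) V) _ r h

/-- The diagonal embedding. -/
def diag : M ↪[L] UP V M where
  toFun m := mk V fun _ => m
  inj' a b h := by simpa using (mk_eq V).1 h
  map_fun' f x := (funMap_mk V f fun i _ => x i).symm
  map_rel' r x := (relMap_mk V r fun i _ => x i).trans (by simp)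

/-- The embedding of ultrapowers induced by an embedding. -/
def UPmap {N : Type u} [L.Structure N] (g : M ↪[L] N) : UP V M ↪[L] UP V N where
  toFun := Quotient.map (fun h x => g (h x)) fun _ _ h => h.mono fun _ hx => congrArg g hx
  inj' a b h := by
    obtain ⟨a, rfl⟩ := mk_surj V a
    obtain ⟨b, rfl⟩ := mk_surj V b
    exact (mk_eq V).2 (((mk_eq V).1 h).mono fun _ hx => g.injective hx)
  map_fun' f y := by
    choose h hh using fun i => mk_surj V (y i)
    obtain rfl : y = fun i => mk V (h i) := funext fun i => (hh i).symm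
    rw [funMap_mk]
    refine Eq.trans ?_ (funMap_mk V f fun i x => g (h i x)).symm
    exact congrArg (mk V) (funext fun x => g.map_fun f _)
  map_rel' r y := by
    choose h hh using fun i => mk_surj V (y i)
    obtain rfl : y = fun i => mk V (h i) := funext fun i => (hh i).symm
    rw [relMap_mk]
    refine (relMap_mk V r fun i x => g (h i x)).trans ?_
    exact Filter.eventually_congr (Eventually.of_forall fun x => g.map_rel r fun i => h i x)

theorem diag_apply (m : M) : (diag V : M ↪[L] UP V M) m = mk V fun _ => m := rfl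

theorem UPmap_mk {N : Type u} [L.Structure N] (g : M ↪[L] N) (h : (J → α) → M) :
    UPmap V g (mk V h) = mk V fun x => g (h x) := rfl

/-- The classes of finitely supported functions with values in `G x` almost everywhere. -/
def Part (G : (J → α) → L.Substructure M) : L.Substructure (UP V M) where
  carrier := {y | ∃ h, FS h ∧ mk V h = y ∧ ∀ᶠ x in (V : Filter (J → α)), h x ∈ G x}
  fun_mem {n} f y hy := by
    choose h h1 h2 h3 using hy
    obtain rfl : y = fun i => mk V (h i) := funext fun i => (h2 i).symm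
    obtain ⟨σ, hσ⟩ := exists_common h1
    refine ⟨fun x => funMap f fun i => h i x, ⟨σ, fun x y hxy => ?_⟩, (funMap_mk V f h).symm, ?_⟩
    · exact congrArg _ (funext fun i => hσ i x y hxy)
    · filter_upwards [eventually_all.2 h3] with x hx using (G x).fun_mem f _ hx

theorem mem_Part {G : (J → α) → L.Substructure M} {y : UP V M} :
    y ∈ Part V G ↔ ∃ h, FS h ∧ mk V h = y ∧ ∀ᶠ x in (V : Filter (J → α)), h x ∈ G x := Iff.rfl

open Classical in
/-- The values of a finite set of functions at a point. -/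
noncomputable def ev (s : Finset {h : (J → α) → M // FS h}) (x : J → α) : Finset M :=
  s.image fun k => k.1 x

omit [L.Structure M] in
theorem ev_mono {s t : Finset {h : (J → α) → M // FS h}} (h : s ⊆ t) (x : J → α) :
    ev s x ⊆ ev t x := by
  classical
  intro m hm
  simp only [ev, Finset.mem_image] at hm ⊢
  obtain ⟨k, h1, h2⟩ := hm
  exact ⟨k, h h1, h2⟩

omit [L.Structure M] in
theorem mem_ev {s : Finset {h : (J → α) → M // FS h}} {x : J → α} {m : M} :
    m ∈ ev s x ↔ ∃ k ∈ s, k.1 x = m := by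
  simp only [ev, Finset.mem_image]

omit [L.Structure M] in
theorem ev_supp (t : Finset {h : (J → α) → M // FS h}) : ∃ σ, ∀ s ⊆ t, Supp σ (ev s) := by
  obtain ⟨σ, hσ⟩ := exists_common (ι := t) (h := fun k => k.1.1) fun k => k.1.2
  refine ⟨σ, fun s hs x y hxy => ?_⟩
  ext m
  simp only [mem_ev]
  exact exists_congr fun k => and_congr_right fun hk => by rw [hσ ⟨k, hs hk⟩ x y hxy]

variable {V} {K : AEC L}

theorem AEC.str_of_range' {A N : Type u} [L.Structure A] [L.Structure N] {T : L.Substructure N}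
    (hT : K.Str T.subtype) (f : A ↪[L] N) (hf : f.toHom.range = T) : K.Str f := by
  subst hf
  have h1 : K.Mem A := K.mem_cod _ (K.str_equiv f.equivRange.symm (K.mem_dom _ hT))
  exact K.str_comp _ _ (K.str_equiv f.equivRange h1) hT

theorem mem_Part_iff {θ : Cardinal.{u}} (hV : Cpl V θ) {Θ : Type u} [Nonempty Θ] (hΘ : #Θ ≤ θ)
    {G : (J → α) → L.Substructure M} {g : Θ → (J → α) → M} {σ : Finset J}
    (hg : ∀ a, Supp σ (g a)) (hG : ∀ x m, m ∈ G x ↔ ∃ a, g a x = m) {y : UP V M} :
    y ∈ Part V G ↔ ∃ a, mk V (g a) = y := by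
  classical
  constructor
  · rintro ⟨h, ⟨τ, h1⟩, rfl, h3⟩
    by_contra hcon
    push Not at hcon
    have h4 := hV (σ ∪ τ) Θ hΘ (fun a x => g a x ≠ h x) (fun a x y hxy => by
      simp only [(hg a).mono Finset.subset_union_left x y hxy,
        h1.mono Finset.subset_union_right x y hxy])
      (fun a => Ultrafilter.eventually_not.2 fun h5 => hcon a ((mk_eq V).2 h5))
    obtain ⟨x, h5, h6⟩ := (h3.and h4).exists
    obtain ⟨a, ha⟩ := (hG x _).1 h5
    exact h6 a ha
  · rintro ⟨a, rfl⟩
    exact ⟨g a, ⟨σ, hg a⟩, rfl, Eventually.of_forall fun x => (hG x _).2 ⟨a, rfl⟩⟩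

theorem mk_fin_arrow_le {β : Type u} {θ : Cardinal.{u}} (hθ : ℵ₀ ≤ θ) (h : #β ≤ θ) (n : ℕ) :
    #(Fin n → β) ≤ θ := by
  simp only [mk_pi, prod_const, lift_id', mk_fintype, Fintype.card_fin, lift_natCast,
    Cardinal.power_natCast]
  exact (pow_le_pow_left' h n).trans (Cardinal.power_nat_le hθ)

theorem part_R (hV : Cpl V K.LS) {G : Finset M → L.Substructure M} (hG : Monotone G)
    (h1 : ∀ s, K.Str (G s).subtype) (h2 : ∀ s, #(G s) ≤ K.LS)
    (s t : Finset {h : (J → α) → M // FS h}) (hst : s ⊆ t) :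
    K.R (Part V fun x => G (ev s x)) (Part V fun x => G (ev t x)) := by
  obtain ⟨hinf, hL, -⟩ := K.LS_spec
  set Θ := K.LS.out with hΘdef
  have hΘ : #Θ = K.LS := Cardinal.mk_out _
  have : Nonempty Θ := Cardinal.mk_ne_zero_iff.1 (by rw [hΘ]; exact (aleph0_pos.trans_le hinf).ne')
  have hE : ∀ u : Finset M, ∃ E : Θ → M, ∀ m, m ∈ G u ↔ ∃ a, E a = m := fun u => by
    have := K.nonempty _ (K.mem_dom _ (h1 u))
    obtain ⟨e⟩ : Nonempty (G u ↪ Θ) := (Cardinal.le_def _ _).1 (hΘ ▸ h2 u)
    refine ⟨fun a => (Function.invFun e a : G u), fun m => ⟨fun hm => ⟨e ⟨m, hm⟩, ?_⟩, ?_⟩⟩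
    · simp only [Function.leftInverse_invFun e.injective ⟨m, hm⟩]
    · rintro ⟨a, rfl⟩
      exact (Function.invFun e a).2
  choose E hE using hE
  obtain ⟨σ, hσ⟩ := ev_supp t
  have hgs : ∀ a, Supp σ fun x => E (ev s x) a := fun a x y hxy => by
    simp only [hσ s hst x y hxy]
  have hgt : ∀ a, Supp σ fun x => E (ev t x) a := fun a x y hxy => by
    simp only [hσ t subset_rfl x y hxy]
  have ms := fun y => mem_Part_iff (y := y) hV hΘ.le (G := fun x => G (ev s x)) hgs
    fun x m => hE _ m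
  have mt := fun y => mem_Part_iff (y := y) hV hΘ.le (G := fun x => G (ev t x)) hgt
    fun x m => hE _ m
  set S := Part V fun x => G (ev s x) with hS
  set T := Part V fun x => G (ev t x) with hT
  have hle : S ≤ T := by
    rintro y ⟨h, e1, e2, e3⟩
    exact ⟨h, e1, e2, e3.mono fun x hx => hG (ev_mono hst x) hx⟩
  choose rep hrep using fun y : T => (mt y).1 y.2
  have hTc : #T ≤ K.LS := by
    rw [← hΘ]
    exact Cardinal.mk_le_of_injective (f := rep) fun y y' h =>
      Subtype.ext (by rw [← hrep y, ← hrep y', h])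
  set r : T → (J → α) → M := fun y x => E (ev t x) (rep y) with hr
  have hrs : ∀ y, Supp σ (r y) := fun y => hgt _
  have hrm : ∀ y : T, mk V (r y) = y := hrep
  have c1 := hV σ (T × T) (by simpa using Cardinal.mul_le_of_le hinf hTc hTc)
    (fun p x => r p.1 x = r p.2 x → p.1 = p.2)
    (fun p x y hxy => by simp only [hrs _ x y hxy]) (fun p => by
      by_cases h : p.1 = p.2
      · exact Eventually.of_forall fun _ _ => h
      · have : ¬ ∀ᶠ x in (V : Filter (J → α)), r p.1 x = r p.2 x := fun h' =>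
          h (Subtype.ext (by rw [← hrm, ← hrm]; exact (mk_eq V).2 h'))
        exact (Ultrafilter.eventually_not.2 this).mono fun x hx h' => absurd h' hx)
  have c2 := hV σ (Σ n, L.Functions n)
    ((Cardinal.mk_le_of_injective (Sum.inl_injective (β := Σ n, L.Relations n))).trans hL)
    (fun p x => ∀ y : Fin p.1 → T, r (funMap p.2 y) x = funMap p.2 fun i => r (y i) x)
    (fun p x y hxy => by simp only [hrs _ x y hxy]) (fun p =>
      hV σ _ (mk_fin_arrow_le hinf hTc p.1) _ (fun y x x' hxy => by simp only [hrs _ x x' hxy])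
        fun y => (mk_eq V).1 (by
          rw [hrm, ← funMap_mk]
          simp only [hrm]
          rfl))
  have c3 := hV σ (Σ n, L.Relations n)
    ((Cardinal.mk_le_of_injective (Sum.inr_injective (α := Σ n, L.Functions n))).trans hL)
    (fun p x => ∀ y : Fin p.1 → T, (RelMap p.2 fun i => r (y i) x) ↔ RelMap p.2 y)
    (fun p x y hxy => by simp only [hrs _ x y hxy]) (fun p =>
      hV σ _ (mk_fin_arrow_le hinf hTc p.1) _ (fun y x x' hxy => by simp only [hrs _ x x' hxy])
        fun y => by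
          have e : RelMap p.2 y ↔ ∀ᶠ x in (V : Filter (J → α)), RelMap p.2 fun i => r (y i) x := by
            rw [← relMap_mk]
            simp only [hrm]
            rfl
          by_cases h : RelMap p.2 y
          · exact (e.1 h).mono fun x hx => iff_of_true hx h
          · exact (Ultrafilter.eventually_not.2 (fun h' => h (e.2 h'))).mono fun x hx => iff_of_false hx h)
  have c4 := hV σ Θ hΘ.le (fun a x => r ⟨_, (mt _).2 ⟨a, rfl⟩⟩ x = E (ev t x) a)
    (fun a x y hxy => by simp only [hrs _ x y hxy, hσ t subset_rfl x y hxy])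
    (fun a => (mk_eq V).1 (hrm _))
  have c5 := hV σ Θ hΘ.le (fun a x => r ⟨_, hle ((ms _).2 ⟨a, rfl⟩)⟩ x = E (ev s x) a)
    (fun a x y hxy => by simp only [hrs _ x y hxy, hσ s hst x y hxy])
    (fun a => (mk_eq V).1 (hrm _))
  obtain ⟨x, d1, d2, d3, d4, d5⟩ := (c1.and (c2.and (c3.and (c4.and c5)))).exists
  let φ : T ↪[L] M :=
    { toFun := fun y => r y x
      inj' := fun y y' h => d1 (y, y') h
      map_fun' := fun f y => d2 ⟨_, f⟩ y
      map_rel' := fun R y => d3 ⟨_, R⟩ y }
  refine ⟨hle, K.coherence _ φ (K.str_of_range' (h1 (ev t x)) _ ?_)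
    (K.str_of_range' (h1 (ev s x)) _ ?_)⟩
  · ext m
    rw [hE]
    constructor
    · rintro ⟨y, rfl⟩
      exact ⟨rep y, rfl⟩
    · rintro ⟨a, rfl⟩
      exact ⟨_, d4 a⟩
  · ext m
    rw [hE]
    constructor
    · rintro ⟨⟨y, hy⟩, rfl⟩
      obtain ⟨a, rfl⟩ := (ms y).1 hy
      exact ⟨a, (d5 a).symm⟩
    · rintro ⟨a, rfl⟩
      exact ⟨⟨_, (ms _).2 ⟨a, rfl⟩⟩, d5 a⟩

variable (V M) in
/-- The limit ultrapower. -/
def Lim : L.Substructure (UP V M) := Part V fun _ => ⊤

theorem mk_mem_Lim {h : (J → α) → M} (hh : FS h) : mk V h ∈ (Lim V M : L.Substructure _) :=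
  ⟨h, hh, rfl, Eventually.of_forall fun _ => trivial⟩

theorem FS_const (m : M) : FS fun _ : J → α => m := ⟨∅, fun _ _ _ => rfl⟩

theorem diag_mem (m : M) : (diag V : M ↪[L] UP V M) m ∈ (Lim V M : L.Substructure _) :=
  mk_mem_Lim (FS_const m)

theorem UPmap_mem {N : Type u} [L.Structure N] (g : M ↪[L] N) (y : (Lim V M : L.Substructure _)) :
    ((UPmap V g).comp (Lim V M).subtype) y ∈ (Lim V N : L.Substructure _) := by
  obtain ⟨_, h, ⟨σ, h1⟩, rfl, -⟩ := y
  exact mk_mem_Lim ⟨σ, fun x y hxy => congrArg g (h1 x y hxy)⟩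

theorem mk_mem_UU {G : Finset M → L.Substructure M}
    (g2 : ∀ s : Finset M, (s : Set M) ⊆ G s) (h : (J → α) → M) (hh : FS h)
    (C : Set {h : (J → α) → M // FS h}) (hC : ⟨h, hh⟩ ∈ C) :
    mk V h ∈ UU (fun s => Part V fun x => G (ev s x)) C := by
  refine le_UU (s := {⟨h, hh⟩}) (by rwa [Finset.coe_singleton, Set.singleton_subset_iff]) ?_
  exact (mem_Part V).2 ⟨h, hh, rfl, Eventually.of_forall fun x =>
    g2 _ (mem_ev.2 ⟨⟨h, hh⟩, Finset.mem_singleton_self _, rfl⟩)⟩

theorem UU_univ {G : Finset M → L.Substructure M}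
    (g2 : ∀ s : Finset M, (s : Set M) ⊆ G s) :
    UU (fun s => Part V fun x => G (ev s x)) Set.univ = Lim V M := by
  refine le_antisymm (UU_le fun s _ => ?_) ?_
  · intro y hy
    obtain ⟨h, e1, rfl, -⟩ := (mem_Part V).1 hy
    exact mk_mem_Lim e1
  · intro y hy
    obtain ⟨h, e1, rfl, -⟩ := (mem_Part V).1 hy
    exact mk_mem_UU g2 h e1 _ trivial

theorem range_diag (hV : Cpl V K.LS) {G : Finset M → L.Substructure M}
    (g2 : ∀ s : Finset M, (s : Set M) ⊆ G s) (g3 : ∀ s, K.Str (G s).subtype)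
    (g4 : ∀ s, #(G s) ≤ K.LS) :
    (diag V : M ↪[L] UP V M).toHom.range =
      UU (fun s => Part V fun x => G (ev s x)) {k | ∃ m, k.1 = fun _ => m} := by
  refine le_antisymm ?_ (UU_le fun s hs => ?_)
  · intro y hy
    obtain ⟨m, rfl⟩ := Hom.mem_range.1 hy
    rw [Embedding.coe_toHom, diag_apply]
    exact mk_mem_UU g2 _ (FS_const m) _ ⟨m, rfl⟩
  · intro y hy
    obtain ⟨x₀⟩ : Nonempty (J → α) := V.neBot.nonempty
    have e : ∀ x, ev s x = ev s x₀ := fun x => by
      ext m
      simp only [mem_ev]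
      refine exists_congr fun k => and_congr_right fun hk => ?_
      obtain ⟨c, hc⟩ := hs hk
      rw [hc]
    have := K.nonempty _ (K.mem_dom _ (g3 (ev s x₀)))
    obtain ⟨a, ha⟩ := (mem_Part_iff hV (g4 (ev s x₀)) (σ := ∅) (g := fun a _ => a.1)
      (G := fun x => G (ev s x)) (fun _ _ _ _ => rfl) (fun x m => by
        rw [e x]
        exact ⟨fun h => ⟨⟨m, h⟩, rfl⟩, fun ⟨a, h⟩ => h ▸ a.2⟩)).1 hy
    exact Hom.mem_range.2 ⟨a, by rw [Embedding.coe_toHom, diag_apply]; exact ha⟩

theorem range_UPmap [Nonempty M] {N : Type u} [L.Structure N] (g : M ↪[L] N)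
    {G : Finset N → L.Substructure N}
    (g2 : ∀ s : Finset N, (s : Set N) ⊆ G s)
    (g5 : ∀ s : Finset N, (s : Set N) ⊆ g.toHom.range → G s ≤ g.toHom.range) :
    ((UPmap V g).comp (Lim V M).subtype).toHom.range =
      UU (fun s => Part V fun x => G (ev s x)) {k | ∀ x, k.1 x ∈ g.toHom.range} := by
  refine le_antisymm ?_ (UU_le fun s hs => ?_)
  · intro y hy
    obtain ⟨⟨y, hy'⟩, rfl⟩ := Hom.mem_range.1 hy
    obtain ⟨h, ⟨σ, h1⟩, rfl, -⟩ := (mem_Part V).1 hy'
    rw [Embedding.coe_toHom, Embedding.comp_apply, Substructure.subtype_apply, UPmap_mk]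
    exact mk_mem_UU g2 _ ⟨σ, fun x y hxy => congrArg g (h1 x y hxy)⟩ _ fun x => ⟨h x, rfl⟩
  · intro y hy
    obtain ⟨h, ⟨σ, h1⟩, rfl, h2⟩ := (mem_Part V).1 hy
    refine Hom.mem_range.2 ⟨⟨_, mk_mem_Lim (h := fun x => Function.invFun g (h x))
      ⟨σ, fun x y hxy => by simp only [h1 x y hxy]⟩⟩, ?_⟩
    rw [Embedding.coe_toHom, Embedding.comp_apply, Substructure.subtype_apply, UPmap_mk, mk_eq]
    filter_upwards [h2] with x hx
    refine Function.invFun_eq (g5 _ (fun m hm => ?_) hx)
    obtain ⟨k, hk, rfl⟩ := mem_ev.1 hm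
    exact hs hk x

/-- Both the diagonal embedding and the induced embedding of limit ultrapowers are strong. -/
theorem lim_str (hV : Cpl V K.LS) {N : Type u} [L.Structure N] {g : M ↪[L] N} (hg : K.Str g) :
    K.Str ((diag V : N ↪[L] UP V N).codRestrict (Lim V N) diag_mem) ∧
    K.Str (((UPmap V g).comp (Lim V M).subtype).codRestrict (Lim V N) (UPmap_mem g)) := by
  obtain ⟨G, g1, g2, g3, g4, g5⟩ := K.exists_system (K.str_range hg)
  have hne := K.nonempty _ (K.mem_dom _ hg)
  have key : ∀ C, K.R (UU (fun s => Part V fun x => G (ev s x)) C) (Lim V N) := fun C => by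
    rw [← UU_univ g2]
    exact UU_R (part_R hV g1 g3 g4) (Set.subset_univ C)
  exact ⟨K.str_of_range (key _) _ (range_diag hV g2 g3 g4) _,
    K.str_of_range (key _) _ (range_UPmap g g2 g5) _⟩

theorem le_card_Lim (e : α ↪ M)
    (hd : ∀ j j' : J, j ≠ j' → ∀ᶠ x in (V : Filter (J → α)), x j ≠ x j') :
    #J ≤ #(Lim V M : L.Substructure _) := by
  refine Cardinal.mk_le_of_injective (f := fun j => ⟨_, mk_mem_Lim (h := fun x => e (x j))
    ⟨{j}, fun x y hxy => congrArg e (hxy j (by simp))⟩⟩) fun j j' h => ?_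
  by_contra hne
  obtain ⟨x, h1, h2⟩ := ((hd j j' hne).and ((mk_eq V).1 (Subtype.ext_iff.1 h))).exists
  exact h1 (e.injective h2)

end Pool.Agent.Lib.MP_ccf8bc_lc
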