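import Mathlib
import Pool.Agent.Lib.MP_ccf8bc_lc.Ultra

/-!
The iterated product of a complete ultrafilter along a linear order.
-/

set_option maxHeartbeats 400000

namespace Pool.Agent.Lib.MP_ccf8bc_lc

open Cardinal Filter

universe u

variable {J α : Type u} [LinearOrder J] (U : Ultrafilter α)

/-- The product of copies of `U` along a list of coordinates. -/
noncomputable def VL : List J → (J → α) → Ultrafilter (J → α)
  | [], x => pure x
  | j :: l, x => U.bind fun y => VL l (Function.update x j y)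

theorem ev_bind {β γ : Type u} (W : Ultrafilter β) (f : β → Ultrafilter γ) (A : γ → Prop) :
    (∀ᶠ z in (W.bind f : Filter γ), A z) ↔ ∀ᶠ y in (W : Filter β), ∀ᶠ z in (f y : Filter γ), A z :=
  Iff.rfl

theorem VL_filter {σ : Finset J} {A : (J → α) → Prop} (hA : Supp σ A) (l : List J)
    (x x' : J → α) (h : ∀ j ∈ σ, x j = x' j) :
    (∀ᶠ z in (VL U l x : Filter (J → α)), A z) ↔
      ∀ᶠ z in (VL U (l.filter (· ∈ σ)) x' : Filter (J → α)), A z := by
  induction l generalizing x x' with
  | nil => simp [VL, hA x x' h]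
  | cons j l ih =>
    by_cases hj : j ∈ σ
    · rw [List.filter_cons_of_pos (by simpa using hj), VL, VL, ev_bind, ev_bind]
      refine Filter.eventually_congr (Eventually.of_forall fun y => ih _ _ fun i hi => ?_)
      by_cases hij : i = j
      · simp [hij]
      · simp [hij, h i hi]
    · rw [List.filter_cons_of_neg (by simpa using hj), VL, ev_bind]
      have : ∀ y, (∀ᶠ z in (VL U l (Function.update x j y) : Filter (J → α)), A z) ↔
          ∀ᶠ z in (VL U (l.filter (· ∈ σ)) x' : Filter (J → α)), A z := fun y =>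
        ih _ _ fun i hi => by
          rw [Function.update_of_ne (show i ≠ j from fun e => hj (e ▸ hi)), h i hi]
      simp only [this, eventually_const]

theorem VL_cpl {Γ : Type u}
    (hU : ∀ B : Γ → α → Prop, (∀ γ, ∀ᶠ y in (U : Filter α), B γ y) →
      ∀ᶠ y in (U : Filter α), ∀ γ, B γ y)
    (A : Γ → (J → α) → Prop) (l : List J) (x : J → α)
    (h : ∀ γ, ∀ᶠ z in (VL U l x : Filter (J → α)), A γ z) :
    ∀ᶠ z in (VL U l x : Filter (J → α)), ∀ γ, A γ z := by
  induction l generalizing x with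
  | nil => simpa [VL] using h
  | cons j l ih =>
    simp only [VL, ev_bind] at h ⊢
    exact (hU _ h).mono fun y hy => ih _ hy

theorem sort_filter {σ τ : Finset J} (h : σ ⊆ τ) :
    (τ.sort (· ≤ ·)).filter (· ∈ σ) = σ.sort (· ≤ ·) := by
  refine List.Perm.eq_of_pairwise (le := (· ≤ ·)) (fun a b _ _ h1 h2 => le_antisymm h1 h2)
    ((Finset.pairwise_sort τ _).filter _) (Finset.pairwise_sort σ _) ?_
  refine (List.perm_ext_iff_of_nodup ((Finset.sort_nodup τ _).filter _)
    (Finset.sort_nodup σ _)).2 fun a => ?_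
  simpa using fun ha => h ha

theorem exists_limit_ultrafilter {θ : Cardinal.{u}} (hnp : ∀ a, {a} ∉ U)
    (hU : ∀ Γ : Type u, #Γ ≤ θ → ∀ B : Γ → α → Prop, (∀ γ, ∀ᶠ y in (U : Filter α), B γ y) →
      ∀ᶠ y in (U : Filter α), ∀ γ, B γ y) :
    ∃ V : Ultrafilter (J → α), Cpl V θ ∧
      ∀ j j' : J, j ≠ j' → ∀ᶠ x in (V : Filter (J → α)), x j ≠ x j' := by
  obtain ⟨a₀⟩ : Nonempty α := U.neBot.nonempty
  set x₀ : J → α := fun _ => a₀
  set W : Ultrafilter (Finset J) := Ultrafilter.of atTop
  set V : Ultrafilter (J → α) := W.bind fun τ => VL U (τ.sort (· ≤ ·)) x₀ with hV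
  have key : ∀ (σ : Finset J) (A : (J → α) → Prop), Supp σ A →
      ((∀ᶠ z in (V : Filter (J → α)), A z) ↔
        ∀ᶠ z in (VL U (σ.sort (· ≤ ·)) x₀ : Filter (J → α)), A z) := fun σ A hA => by
    rw [hV, ev_bind, ← eventually_const (f := (W : Filter (Finset J)))
      (p := ∀ᶠ z in (VL U (σ.sort (· ≤ ·)) x₀ : Filter (J → α)), A z)]
    refine Filter.eventually_congr ?_
    filter_upwards [Ultrafilter.of_le atTop (eventually_ge_atTop σ)] with τ hτ
    rw [VL_filter U hA _ x₀ x₀ fun _ _ => rfl, sort_filter hτ]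
  refine ⟨V, fun σ Γ hΓ A hA h => ?_, ?_⟩
  · rw [key σ _ fun x y hxy => by simp only [fun γ => hA γ x y hxy]]
    exact VL_cpl U (hU Γ hΓ) A _ _ fun γ => (key σ _ (hA γ)).1 (h γ)
  · have hlt : ∀ j j' : J, j < j' → ∀ᶠ x in (V : Filter (J → α)), x j ≠ x j' := fun j j' h => by
      rw [key {j, j'} _ fun x y hxy => by simp only [hxy j (by simp), hxy j' (by simp)]]
      have e : ({j, j'} : Finset J).sort (· ≤ ·) = [j, j'] := by
        rw [Finset.sort_insert _ (by simpa using h.le) (by simpa using h.ne), Finset.sort_singleton]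
      rw [e, VL, ev_bind]
      refine Eventually.of_forall fun y => ?_
      rw [VL, ev_bind]
      filter_upwards [Ultrafilter.compl_mem_iff_notMem.2 (hnp y)] with y' hy'
      simpa [VL, h.ne, eq_comm] using hy'
    intro j j' h
    rcases lt_or_gt_of_ne h with h | h
    · exact hlt j j' h
    · exact (hlt j' j h).mono fun x hx => hx.symm

end Pool.Agent.Lib.MP_ccf8bc_lc
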